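import Mathlib
import Pool.Agent.H181.CnA
import Pool.Agent.H181.CnB
import Pool.Agent.H181.CnC
import Pool.Agent.H181.CnD

/-!
# MP_74ce82_an: the bounds `2 n^2 / π < c_n^{1/(2n)} < n / sin (π/(2n))` for every `n ≥ 1`.

`D n c` is the polynomial `D_{2n}(·;c)`, and `rightRoots n c` the number of its roots (with
multiplicity) with real part `> -1/2`; the threshold `c_n` is the number with
`rightRoots n c = n ↔ c_n ≤ c`.
-/

open Polynomial

namespace Pool.Agent.Results.MP_74ce82_an.ThresholdBounds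

/-- `D_{2n}(z;c) = ∏_{j=1}^{2n} (z - (j-1)) + (-1)^n c`. -/
noncomputable def D (n : ℕ) (c : ℝ) : ℂ[X] :=
  (∏ j ∈ Finset.Icc 1 (2 * n), (X - C ((j : ℂ) - 1))) + C ((-1) ^ n * (c : ℂ))

/-- Number of roots of `D_{2n}(·;c)`, counted with multiplicity, with real part `> -1/2`. -/
noncomputable def rightRoots (n : ℕ) (c : ℝ) : ℕ :=
  Multiset.card ((D n c).roots.filter (fun z : ℂ => -(1 / 2 : ℝ) < z.re))

open Pool.Agent.H181 in
lemma D_eq (n : ℕ) (c : ℝ) : D n c = Cn.D n c := by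
  unfold D Cn.D
  congr 1
  · rw [Finset.range_eq_Ico]
    rw [show Finset.Icc 1 (2 * n) = Finset.Ico (0 + 1) (2 * n + 1) from rfl]
    rw [← Finset.prod_Ico_add' (fun j : ℕ => (X - C ((j : ℂ) - 1) : ℂ[X])) 0 (2 * n) 1]
    apply Finset.prod_congr rfl
    intro j _
    push_cast
    rw [add_sub_cancel_right]
  · congr 1
    push_cast
    ring

open Pool.Agent.H181 in
lemma rightRoots_eq (n : ℕ) (c : ℝ) : rightRoots n c = Cn.rightRoots n c := by
  unfold rightRoots Cn.rightRoots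
  rw [D_eq]

open Pool.Agent.H181 Complex

lemma P1 (y : ℝ) : Cn.P 1 y = (((y ^ 2 - 3 / 4 : ℝ)) : ℂ) + ((2 * y : ℝ) : ℂ) * I := by
  simp only [Cn.P, Finset.prod_range_succ, Finset.prod_range_zero, Nat.reduceMul]
  have hI : I ^ 2 = -1 := Complex.I_sq
  push_cast
  linear_combination (3 / 4 : ℂ) * hI

lemma P2 (y : ℝ) : Cn.P 2 y = (((y ^ 4 - 43 / 2 * y ^ 2 + 105 / 16 : ℝ)) : ℂ)
    + ((8 * y ^ 3 - 22 * y : ℝ) : ℂ) * I := by
  simp only [Cn.P, Finset.prod_range_succ, Finset.prod_range_zero, Nat.reduceMul]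
  have hI : I ^ 2 = -1 := Complex.I_sq
  push_cast
  linear_combination (43 / 2 * (y : ℂ) ^ 2 + 22 * y * I + 105 / 16 * (I ^ 2 - 1)) * hI

lemma P3 (y : ℝ) : Cn.P 3 y =
    (((y ^ 2) ^ 3 - 505 / 4 * (y ^ 2) ^ 2 + 12139 / 16 * y ^ 2 - 10395 / 64 : ℝ) : ℂ)
    + ((y * (18 * (y ^ 2) ^ 2 - 435 * y ^ 2 + 4881 / 8) : ℝ) : ℂ) * I := by
  simp only [Cn.P, Finset.prod_range_succ, Finset.prod_range_zero, Nat.reduceMul]
  have hI : I ^ 2 = -1 := Complex.I_sq
  push_cast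
  linear_combination (505 / 4 * (y : ℂ) ^ 4 + 435 * y ^ 3 * I + 12139 / 16 * y ^ 2 * (I ^ 2 - 1)
    + 4881 / 8 * y * I * (I ^ 2 - 1) + 10395 / 64 * (I ^ 4 - I ^ 2 + 1)) * hI

lemma im_mk (a b : ℝ) : ((a : ℂ) + (b : ℂ) * I).im = b := by simp

lemma c1 (cn : ℝ) (hc : ∀ c : ℝ, Cn.rightRoots 1 c = 1 ↔ cn ≤ c) : cn = 3 / 4 := by
  apply Cn.threshold 1 le_rfl cn hc 0 (3 / 4) le_rfl (by norm_num)
  · rw [P1]; push_cast; ring
  · intro y' hy' c _ h
    rw [P1] at h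
    have h1 := congrArg Complex.im h
    rw [im_mk, Complex.neg_im, Complex.ofReal_im] at h1
    linarith

lemma c2 (cn : ℝ) (hc : ∀ c : ℝ, Cn.rightRoots 2 c = 2 ↔ cn ≤ c) : cn = 45 := by
  have hs : Real.sqrt (11 / 4) ^ 2 = 11 / 4 := Real.sq_sqrt (by norm_num)
  have hs0 : 0 ≤ Real.sqrt (11 / 4) := Real.sqrt_nonneg _
  apply Cn.threshold 2 (by norm_num) cn hc (Real.sqrt (11 / 4)) 45 hs0 (by norm_num)
  · rw [P2]
    have e1 : Real.sqrt (11 / 4) ^ 4 - 43 / 2 * Real.sqrt (11 / 4) ^ 2 + 105 / 16 = -45 := by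
      have : Real.sqrt (11 / 4) ^ 4 = (Real.sqrt (11 / 4) ^ 2) ^ 2 := by ring
      rw [this, hs]; norm_num
    have e2 : 8 * Real.sqrt (11 / 4) ^ 3 - 22 * Real.sqrt (11 / 4) = 0 := by
      have : Real.sqrt (11 / 4) ^ 3 = Real.sqrt (11 / 4) ^ 2 * Real.sqrt (11 / 4) := by ring
      rw [this, hs]; ring
    rw [e1, e2]; push_cast; ring
  · intro y' hy' c _ h
    rw [P2] at h
    have h1 := congrArg Complex.im h
    rw [im_mk, Complex.neg_im, Complex.ofReal_im, neg_zero] at h1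
    have hy0 : 0 < y' := lt_of_le_of_lt hs0 hy'
    have h2 : 11 / 4 < y' ^ 2 := by
      rw [← hs]; exact pow_lt_pow_left₀ hy' hs0 (by norm_num)
    have h3 : 8 * y' ^ 3 - 22 * y' = y' * (8 * (y' ^ 2 - 11 / 4)) := by ring
    rw [h3] at h1
    have h4 : 0 < y' * (8 * (y' ^ 2 - 11 / 4)) := mul_pos hy0 (by linarith)
    linarith

lemma c3 (cn : ℝ) (hc : ∀ c : ℝ, Cn.rightRoots 3 c = 3 ↔ cn ≤ c) :
    cn = 2240 * (214 + 7 * Real.sqrt 1009) / 27 := by
  have hq : Real.sqrt 1009 ^ 2 = 1009 := Real.sq_sqrt (by norm_num)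
  have hq0 : 0 ≤ Real.sqrt 1009 := Real.sqrt_nonneg _
  set q := Real.sqrt 1009 with hqdef
  set Y : ℝ := (145 + 4 * q) / 12 with hY
  have hY0 : 0 ≤ Y := by positivity
  have hs : Real.sqrt Y ^ 2 = Y := Real.sq_sqrt hY0
  have hs0 : 0 ≤ Real.sqrt Y := Real.sqrt_nonneg _
  apply Cn.threshold 3 (by norm_num) cn hc (Real.sqrt Y) _ hs0 (by positivity)
  · rw [P3, hs]
    have e2 : 18 * Y ^ 2 - 435 * Y + 4881 / 8 = 0 := by
      rw [hY]; linear_combination 2 * hq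
    have e1 : Y ^ 3 - 505 / 4 * Y ^ 2 + 12139 / 16 * Y - 10395 / 64
        = -(2240 * (214 + 7 * q) / 27) := by
      rw [hY]; linear_combination (q / 27 - 10) * hq
    rw [e1, e2, mul_zero]; push_cast; ring
  · intro y' hy' c _ h
    rw [P3] at h
    have h1 := congrArg Complex.im h
    rw [im_mk, Complex.neg_im, Complex.ofReal_im, neg_zero] at h1
    have hy0 : 0 < y' := lt_of_le_of_lt hs0 hy'
    have h2 : Y < y' ^ 2 := by
      rw [← hs]; exact pow_lt_pow_left₀ hy' hs0 (by norm_num)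
    have h3 : 18 * (y' ^ 2) ^ 2 - 435 * y' ^ 2 + 4881 / 8
        = 18 * (y' ^ 2 - Y) * (y' ^ 2 - (145 - 4 * q) / 12) := by
      rw [hY]; linear_combination 2 * hq
    have h4 : 0 < y' ^ 2 - (145 - 4 * q) / 12 := by
      rw [hY] at h2; linarith
    rw [h3] at h1
    have h5 := mul_pos hy0 (mul_pos (mul_pos (by norm_num : (0 : ℝ) < 18) (sub_pos.2 h2)) h4)
    linarith

lemma pow_bounds {n : ℕ} (hn : 1 ≤ n) {a b c : ℝ} (ha : 0 ≤ a) (hb : 0 ≤ b) (hc : 0 ≤ c)
    (h1 : a ^ (2 * n) < c) (h2 : c < b ^ (2 * n)) :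
    a < c ^ (1 / (2 * (n : ℝ))) ∧ c ^ (1 / (2 * (n : ℝ))) < b := by
  have hn' : (1 : ℝ) ≤ n := by exact_mod_cast hn
  have e : (1 / (2 * (n : ℝ))) = ((2 * n : ℕ) : ℝ)⁻¹ := by push_cast; rw [one_div]
  rw [e]
  constructor
  · rw [Real.lt_rpow_inv_iff_of_pos ha hc (by push_cast; linarith), Real.rpow_natCast]
    exact h1
  · rw [Real.rpow_inv_lt_iff_of_pos hc hb (by push_cast; linarith), Real.rpow_natCast]
    exact h2

/-- **MP_74ce82_an, Q1.** Let `n ≥ 1` and let `c_n` be the threshold, i.e. the real number such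
that `D_{2n}(·;c)` has exactly `n` roots (with multiplicity) of real part `> -1/2` if and only if
`c ≥ c_n`. Then `2 n^2 / π < c_n^{1/(2n)} < n / sin (π/(2n))`. -/
theorem result (n : ℕ) (hn : 1 ≤ n) (cn : ℝ) (hc : ∀ c : ℝ, rightRoots n c = n ↔ cn ≤ c) :
    2 * (n : ℝ) ^ 2 / Real.pi < cn ^ (1 / (2 * (n : ℝ))) ∧
      cn ^ (1 / (2 * (n : ℝ))) < n / Real.sin (Real.pi / (2 * n)) := by
  have hc' : ∀ c : ℝ, Cn.rightRoots n c = n ↔ cn ≤ c := by
    intro c; rw [← rightRoots_eq]; exact hc c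
  have hπ := Real.pi_pos
  have hπ3 : 3.1415 < Real.pi := Real.pi_gt_d4
  rcases lt_or_ge n 4 with h4 | h4
  · interval_cases n
    · have := c1 cn hc'
      rw [this]
      apply pow_bounds le_rfl (by positivity) _ (by norm_num)
      · push_cast
        rw [div_pow, div_lt_iff₀ (by positivity)]
        nlinarith
      · push_cast
        rw [mul_one, Real.sin_pi_div_two]; norm_num
      · push_cast
        rw [mul_one, Real.sin_pi_div_two]; norm_num
    · have := c2 cn hc'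
      rw [this]
      have e : Real.pi / (2 * ((2 : ℕ) : ℝ)) = Real.pi / 4 := by push_cast; ring
      have hs : (((2 : ℕ) : ℝ) / Real.sin (Real.pi / (2 * ((2 : ℕ) : ℝ)))) ^ 2 = 8 := by
        rw [e, Real.sin_pi_div_four, div_pow, div_pow, Real.sq_sqrt (by norm_num)]; norm_num
      have hs0 : 0 ≤ (((2 : ℕ) : ℝ) / Real.sin (Real.pi / (2 * ((2 : ℕ) : ℝ)))) := by
        rw [e, Real.sin_pi_div_four]; positivity
      apply pow_bounds (by norm_num) (by positivity) hs0 (by norm_num)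
      · push_cast
        rw [div_pow, div_lt_iff₀ (by positivity)]
        have h1 : (3.1415 : ℝ) ^ 4 ≤ Real.pi ^ 4 := pow_le_pow_left₀ (by norm_num) hπ3.le 4
        norm_num at h1 ⊢
        linarith
      · have : (((2 : ℕ) : ℝ) / Real.sin (Real.pi / (2 * ((2 : ℕ) : ℝ)))) ^ (2 * 2)
          = ((((2 : ℕ) : ℝ) / Real.sin (Real.pi / (2 * ((2 : ℕ) : ℝ)))) ^ 2) ^ 2 := by
          rw [← pow_mul]
        rw [this, hs]; norm_num
    · have := c3 cn hc'
      rw [this]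
      have e : Real.pi / (2 * ((3 : ℕ) : ℝ)) = Real.pi / 6 := by push_cast; ring
      have hs : (((3 : ℕ) : ℝ) / Real.sin (Real.pi / (2 * ((3 : ℕ) : ℝ)))) = 6 := by
        rw [e, Real.sin_pi_div_six]; norm_num
      rw [hs]
      have hq1 : (31.7 : ℝ) < Real.sqrt 1009 := by
        apply Real.lt_sqrt_of_sq_lt; norm_num
      have hq2 : Real.sqrt 1009 < 31.8 := by
        rw [Real.sqrt_lt' (by norm_num)]; norm_num
      apply pow_bounds (by norm_num) (by positivity) (by norm_num) (by positivity)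
      · push_cast
        rw [div_pow, div_lt_iff₀ (by positivity)]
        have h1 : (3.1415 : ℝ) ^ 6 ≤ Real.pi ^ 6 := pow_le_pow_left₀ (by norm_num) hπ3.le 6
        have h2 : (2240 * (214 + 7 * 31.7) / 27 : ℝ) ≤ 2240 * (214 + 7 * Real.sqrt 1009) / 27 := by
          linarith
        have h3 := mul_le_mul h2 h1 (by norm_num) (by positivity)
        refine lt_of_lt_of_le ?_ h3
        norm_num
      · norm_num
        norm_num at hq2
        linarith
  · exact Cn.main_ge4 n h4 cn hc'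

end Pool.Agent.Results.MP_74ce82_an.ThresholdBounds
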